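import Pool.Agent.Helper88.LG.Goals
import Pool.Agent.Helper56.PrimeAsymp

/-!
# UU: a positive proportion of the integers is close to a prime (MP_69be96_nt)
-/

set_option autoImplicit false
set_option linter.unusedVariables false

open Finset Filter Topology

open scoped Classical

namespace Pool.Agent.Helper33.LG

open Pool.Agent.Helper88.LG

/-- pairs of primes at distance at most `L` -/
noncomputable def prs (x L : ℕ) : Finset (ℕ × ℕ) :=
  (Icc 1 x ×ˢ Icc 1 L).filter (fun z => z.1.Prime ∧ (z.1 + z.2).Prime)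

theorem card_close (x L : ℕ) (Q : Finset ℕ) (hQ : ∀ q ∈ Q, q.Prime ∧ x / 2 < q ∧ q + L ≤ x) :
    ((Q ×ˢ Q).filter (fun z => z.1 < z.2 + L ∧ z.2 < z.1 + L)).card ≤
      Q.card + 2 * (prs x L).card := by
  have hsub : (Q ×ˢ Q).filter (fun z => z.1 < z.2 + L ∧ z.2 < z.1 + L) ⊆
      (Q.image (fun q => (q, q)) ∪ (Q ×ˢ Q).filter (fun z => z.1 < z.2 ∧ z.2 < z.1 + L)) ∪
        (Q ×ˢ Q).filter (fun z => z.2 < z.1 ∧ z.1 < z.2 + L) := by
    rintro ⟨q, q'⟩ hz
    simp only [mem_filter, mem_product] at hz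
    simp only [mem_union, mem_image, mem_filter, mem_product, Prod.mk.injEq]
    rcases lt_trichotomy q q' with h | h | h
    · exact Or.inl (Or.inr ⟨hz.1, h, hz.2.2⟩)
    · exact Or.inl (Or.inl ⟨q, hz.1.1, rfl, h⟩)
    · exact Or.inr ⟨hz.1, h, hz.2.1⟩
  have h1 : ((Q ×ˢ Q).filter (fun z => z.1 < z.2 ∧ z.2 < z.1 + L)).card ≤ (prs x L).card := by
    apply card_le_card_of_injOn (fun z => (z.1, z.2 - z.1))
    · rintro ⟨q, q'⟩ hz
      simp only [coe_filter, Set.mem_ofPred_eq, mem_product] at hz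
      simp only [prs, coe_filter, Set.mem_ofPred_eq, mem_product, mem_Icc]
      have ha := hQ q hz.1.1
      have hb := hQ q' hz.1.2
      have hp := ha.1.pos
      refine ⟨⟨⟨by omega, by omega⟩, by omega, by omega⟩, ha.1, ?_⟩
      have : q + (q' - q) = q' := by omega
      rw [this]
      exact hb.1
    · rintro ⟨q, q'⟩ hz ⟨p, p'⟩ hz' he
      simp only [coe_filter, Set.mem_ofPred_eq, mem_product] at hz hz'
      simp only [Prod.mk.injEq] at he ⊢
      omega
  have h2 : ((Q ×ˢ Q).filter (fun z => z.2 < z.1 ∧ z.1 < z.2 + L)).card ≤ (prs x L).card := by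
    apply card_le_card_of_injOn (fun z => (z.2, z.1 - z.2))
    · rintro ⟨q, q'⟩ hz
      simp only [coe_filter, Set.mem_ofPred_eq, mem_product] at hz
      simp only [prs, coe_filter, Set.mem_ofPred_eq, mem_product, mem_Icc]
      have ha := hQ q hz.1.1
      have hb := hQ q' hz.1.2
      have hp := hb.1.pos
      refine ⟨⟨⟨by omega, by omega⟩, by omega, by omega⟩, hb.1, ?_⟩
      have : q' + (q - q') = q := by omega
      rw [this]
      exact ha.1
    · rintro ⟨q, q'⟩ hz ⟨p, p'⟩ hz' he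
      simp only [coe_filter, Set.mem_ofPred_eq, mem_product] at hz hz'
      simp only [Prod.mk.injEq] at he ⊢
      omega
  have h3 := card_le_card hsub
  have h4 := card_union_le (Q.image (fun q => (q, q)) ∪
    (Q ×ˢ Q).filter (fun z => z.1 < z.2 ∧ z.2 < z.1 + L))
    ((Q ×ˢ Q).filter (fun z => z.2 < z.1 ∧ z.1 < z.2 + L))
  have h5 := card_union_le (Q.image (fun q => (q, q)))
    ((Q ×ˢ Q).filter (fun z => z.1 < z.2 ∧ z.2 < z.1 + L))
  have h6 : (Q.image (fun q => (q, q))).card ≤ Q.card := card_image_le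
  omega

theorem comb (x L : ℕ) (Q : Finset ℕ) (hQ : ∀ q ∈ Q, q.Prime ∧ x / 2 < q ∧ q + L ≤ x) :
    ((Q.card : ℝ) * L) ^ 2 ≤
      (((Ioc (x / 2) x).filter (fun m : ℕ => ∃ q : ℕ, q.Prime ∧ q ≤ m ∧ m < q + L)).card : ℝ) *
        (L * (Q.card + 2 * (prs x L).card)) := by
  set W := (Ioc (x / 2) x).filter (fun m : ℕ => ∃ q : ℕ, q.Prime ∧ q ≤ m ∧ m < q + L) with hW
  set N : ℕ → ℝ := fun m => ∑ q ∈ Q, if q ≤ m ∧ m < q + L then (1 : ℝ) else 0 with hN
  have hcount : ∀ q ∈ Q, ∑ m ∈ Ioc (x / 2) x, (if q ≤ m ∧ m < q + L then (1 : ℝ) else 0) = L := by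
    intro q hq
    rw [← sum_filter, sum_const, nsmul_eq_mul, mul_one]
    have : (Ioc (x / 2) x).filter (fun m => q ≤ m ∧ m < q + L) = Ico q (q + L) := by
      ext m
      have := hQ q hq
      simp only [mem_filter, mem_Ioc, mem_Ico]
      omega
    rw [this, Nat.card_Ico, Nat.add_sub_cancel_left]
  have hsumN : ∑ m ∈ Ioc (x / 2) x, N m = Q.card * L := by
    rw [hN, sum_comm, sum_congr rfl hcount, sum_const, nsmul_eq_mul]
  have hzero : ∀ m ∈ Ioc (x / 2) x, m ∉ W → N m = 0 := by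
    intro m hm hmW
    apply sum_eq_zero
    intro q hq
    rw [if_neg]
    intro h
    apply hmW
    rw [hW, mem_filter]
    exact ⟨hm, q, (hQ q hq).1, h.1, h.2⟩
  have hsumW : ∑ m ∈ W, N m = Q.card * L := by
    rw [← hsumN]
    exact sum_subset (filter_subset _ _) hzero
  have hcs := sq_sum_le_card_mul_sum_sq (s := W) (f := N)
  rw [hsumW] at hcs
  refine hcs.trans (mul_le_mul_of_nonneg_left ?_ (Nat.cast_nonneg _))
  have h1 : ∑ m ∈ W, N m ^ 2 ≤ ∑ m ∈ Ioc (x / 2) x, N m ^ 2 :=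
    sum_le_sum_of_subset_of_nonneg (filter_subset _ _) (fun _ _ _ => sq_nonneg _)
  refine h1.trans ?_
  have h2 : ∀ m, N m ^ 2 = ∑ z ∈ Q ×ˢ Q,
      (if z.1 ≤ m ∧ m < z.1 + L then (1 : ℝ) else 0) * (if z.2 ≤ m ∧ m < z.2 + L then (1 : ℝ) else 0) := by
    intro m
    rw [sq, hN, sum_mul_sum, sum_product]
  simp only [h2]
  rw [sum_comm]
  have h3 : ∀ z ∈ Q ×ˢ Q, ∑ m ∈ Ioc (x / 2) x,
      (if z.1 ≤ m ∧ m < z.1 + L then (1 : ℝ) else 0) * (if z.2 ≤ m ∧ m < z.2 + L then (1 : ℝ) else 0)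
      ≤ if z.1 < z.2 + L ∧ z.2 < z.1 + L then (L : ℝ) else 0 := by
    intro z hz
    have hz1 := (mem_product.1 hz).1
    split_ifs with h
    · rw [← hcount z.1 hz1]
      apply sum_le_sum
      intro m hm
      split_ifs <;> norm_num
    · apply le_of_eq
      apply sum_eq_zero
      intro m hm
      split_ifs with ha hb
      · exfalso
        apply h
        omega
      · norm_num
      · norm_num
      · norm_num
  refine (sum_le_sum h3).trans ?_
  rw [← sum_filter, sum_const, nsmul_eq_mul, mul_comm]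
  apply mul_le_mul_of_nonneg_left _ (Nat.cast_nonneg _)
  exact_mod_cast card_close x L Q hQ

theorem prime_card (x L : ℕ) : Nat.primeCounting x ≤ Nat.primeCounting (x / 2) +
    ((Ioc (x / 2) x).filter (fun q => q.Prime ∧ q + L ≤ x)).card + L := by
  rw [← Nat.primesLE_card_eq_primeCounting, ← Nat.primesLE_card_eq_primeCounting]
  have hsub : Nat.primesLE x ⊆ (Nat.primesLE (x / 2) ∪
      (Ioc (x / 2) x).filter (fun q => q.Prime ∧ q + L ≤ x)) ∪ Ioc (x - L) x := by
    intro q hq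
    rw [Nat.mem_primesLE] at hq
    simp only [mem_union, mem_filter, mem_Ioc, Nat.mem_primesLE]
    have := hq.2
    by_cases h1 : q ≤ x / 2
    · exact Or.inl (Or.inl ⟨h1, hq.2⟩)
    · by_cases h2 : q + L ≤ x
      · exact Or.inl (Or.inr ⟨⟨by omega, hq.1⟩, hq.2, h2⟩)
      · exact Or.inr ⟨by omega, hq.1⟩
  have h1 := card_le_card hsub
  have h2 := card_union_le (Nat.primesLE (x / 2) ∪
      (Ioc (x / 2) x).filter (fun q => q.Prime ∧ q + L ≤ x)) (Ioc (x - L) x)
  have h3 := card_union_le (Nat.primesLE (x / 2))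
      ((Ioc (x / 2) x).filter (fun q => q.Prime ∧ q + L ≤ x))
  have h4 : (Ioc (x - L) x).card ≤ L := by
    rw [Nat.card_Ioc]
    omega
  omega

theorem prime_card_le (x L : ℕ) :
    ((Ioc (x / 2) x).filter (fun q => q.Prime ∧ q + L ≤ x)).card ≤ Nat.primeCounting x := by
  rw [← Nat.primesLE_card_eq_primeCounting]
  apply card_le_card
  intro q hq
  simp only [mem_filter, mem_Ioc] at hq
  rw [Nat.mem_primesLE]
  exact ⟨hq.1.2, hq.2.1⟩

theorem uu (hPR : StmtPR) : StmtUU := by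
  obtain ⟨C, hC, hPR⟩ := hPR
  refine ⟨1 / (25 * (4 + 8 * C)), by positivity, ?_⟩
  have hpnt := Helper56.pi_mul_log_div_tendsto
  have hup : ∀ᶠ X : ℝ in atTop, (Nat.primeCounting ⌊X⌋₊ : ℝ) * Real.log X / X < 1.05 :=
    hpnt.eventually_lt_const (by norm_num)
  have hlo : ∀ᶠ X : ℝ in atTop, 0.95 < (Nat.primeCounting ⌊X⌋₊ : ℝ) * Real.log X / X :=
    hpnt.eventually_const_lt (by norm_num)
  have hcast : Tendsto (fun x : ℕ => (x : ℝ)) atTop atTop := tendsto_natCast_atTop_atTop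
  have hhalf : Tendsto (fun x : ℕ => (x : ℝ) / 2) atTop atTop := hcast.atTop_div_const (by norm_num)
  have hlog : Tendsto (fun x : ℕ => Real.log (x : ℝ)) atTop atTop :=
    Real.tendsto_log_atTop.comp hcast
  have hsmall : ∀ᶠ X : ℝ in atTop, Real.log X ^ 2 ≤ (1 / 100) * X := by
    have h1 := (isLittleO_log_rpow_atTop (r := 1 / 2) (by norm_num)).bound
      (c := 1 / 10) (by norm_num)
    filter_upwards [h1, eventually_ge_atTop 1] with X hX hX1
    have h2 : 0 ≤ Real.log X := Real.log_nonneg hX1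
    rw [Real.norm_eq_abs, Real.norm_eq_abs, abs_of_nonneg h2,
      abs_of_nonneg (Real.rpow_nonneg (by linarith) _)] at hX
    have h3 : (X ^ (1 / 2 : ℝ)) ^ 2 = X := by
      rw [← Real.rpow_natCast, ← Real.rpow_mul (by linarith)]
      norm_num
    have h4 : Real.log X ^ 2 ≤ (1 / 10 * X ^ (1 / 2 : ℝ)) ^ 2 := pow_le_pow_left₀ h2 hX 2
    rw [mul_pow, h3] at h4
    linarith
  filter_upwards [hcast.eventually hup, hcast.eventually hlo, hhalf.eventually hup,
    hcast.eventually hsmall, hlog.eventually_ge_atTop 10, eventually_ge_atTop 2]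
    with x e1 e2 e3 e4 e5 e6
  have hx0 : (0 : ℝ) < x := by
    have : (2 : ℝ) ≤ x := by exact_mod_cast e6
    linarith
  set l := Real.log (x : ℝ) with hl
  have hl0 : 0 < l := by linarith
  set L := ⌈l⌉₊ with hL
  have hL1 : l ≤ L := Nat.le_ceil l
  have hL2 : (L : ℝ) < l + 1 := Nat.ceil_lt_add_one hl0.le
  have hL3 : (L : ℝ) ≤ 2 * l := by linarith
  have hL4 : 1 ≤ L := Nat.one_le_ceil_iff.2 hl0
  set Q := (Ioc (x / 2) x).filter (fun q => q.Prime ∧ q + L ≤ x) with hQdef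
  have hQ : ∀ q ∈ Q, q.Prime ∧ x / 2 < q ∧ q + L ≤ x := by
    intro q hq
    rw [hQdef, mem_filter, mem_Ioc] at hq
    exact ⟨hq.2.1, hq.1.1, hq.2.2⟩
  have hc := comb x L Q hQ
  have hp := hPR x L e6 hL4
  have hprs : ((prs x L).card : ℝ) ≤ C * x * L / l ^ 2 := hp
  -- bounds for Q
  rw [Nat.floor_natCast, div_lt_iff₀ hx0] at e1
  rw [Nat.floor_natCast, lt_div_iff₀ hx0] at e2
  have hfl : ⌊(x : ℝ) / 2⌋₊ = x / 2 := by
    have := Nat.floor_div_natCast (K := ℝ) (x : ℝ) 2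
    simpa using this
  rw [hfl, div_lt_iff₀ (by linarith), Real.log_div hx0.ne' (by norm_num), ← hl] at e3
  have hlog2 : Real.log 2 ≤ 0.1 * l := by
    have := Real.log_two_lt_d9
    linarith
  have e3' : (Nat.primeCounting (x / 2) : ℝ) * (0.9 * l) ≤ 1.05 * (x / 2) := by
    have h1 : (Nat.primeCounting (x / 2) : ℝ) * (0.9 * l) ≤
        (Nat.primeCounting (x / 2) : ℝ) * (l - Real.log 2) :=
      mul_le_mul_of_nonneg_left (by linarith) (Nat.cast_nonneg _)
    linarith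
  have hA : (Nat.primeCounting x : ℝ) ≤ Nat.primeCounting (x / 2) + Q.card + L := by
    exact_mod_cast prime_card x L
  have hB : (Q.card : ℝ) ≤ Nat.primeCounting x := by
    exact_mod_cast prime_card_le x L
  have hQlo : (x : ℝ) / 5 ≤ Q.card * l := by
    have h1 := mul_le_mul_of_nonneg_right hA hl0.le
    have h2 : (L : ℝ) * l ≤ 2 * l ^ 2 := by nlinarith
    nlinarith
  have hQhi : (Q.card : ℝ) * l ≤ 2 * x := by
    have h1 := mul_le_mul_of_nonneg_right hB hl0.le
    linarith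
  set Wc := (((Ioc (x / 2) x).filter (fun m : ℕ => ∃ q : ℕ, q.Prime ∧ q ≤ m ∧
    m < q + L)).card : ℝ) with hWc
  have hWc0 : 0 ≤ Wc := Nat.cast_nonneg _
  have h1 : ((x : ℝ) / 5) ^ 2 ≤ ((Q.card : ℝ) * L) ^ 2 := by
    apply pow_le_pow_left₀ (by positivity)
    exact hQlo.trans (mul_le_mul_of_nonneg_left hL1 (Nat.cast_nonneg _))
  have h2 : (L : ℝ) * (Q.card + 2 * (prs x L).card) ≤ (4 + 8 * C) * x := by
    have h3 : (L : ℝ) * Q.card ≤ 4 * x := by
      have : (L : ℝ) * Q.card ≤ 2 * l * Q.card := mul_le_mul_of_nonneg_right hL3 (Nat.cast_nonneg _)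
      linarith
    have h4 : (L : ℝ) * (2 * (prs x L).card) ≤ 8 * C * x := by
      have h5 : (L : ℝ) * (2 * (prs x L).card) ≤ L * (2 * (C * x * L / l ^ 2)) := by
        apply mul_le_mul_of_nonneg_left _ (Nat.cast_nonneg _)
        linarith
      refine h5.trans ?_
      have h6 : (L : ℝ) * (2 * (C * x * L / l ^ 2)) = 2 * C * x * (L / l) ^ 2 := by
        field_simp
      rw [h6]
      have h7 : (L : ℝ) / l ≤ 2 := by
        rw [div_le_iff₀ hl0]
        exact hL3
      have h8 : ((L : ℝ) / l) ^ 2 ≤ 2 ^ 2 := pow_le_pow_left₀ (by positivity) h7 2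
      have h9 : 0 ≤ 2 * C * x := by positivity
      have h10 := mul_le_mul_of_nonneg_left h8 h9
      linarith
    rw [mul_add]
    linarith
  have h3 : ((x : ℝ) / 5) ^ 2 ≤ Wc * ((4 + 8 * C) * x) :=
    h1.trans (hc.trans (mul_le_mul_of_nonneg_left h2 hWc0))
  have h4 : (x : ℝ) / 25 ≤ Wc * (4 + 8 * C) := by
    have h5 : (x : ℝ) / 25 * x ≤ Wc * (4 + 8 * C) * x := by
      calc (x : ℝ) / 25 * x = ((x : ℝ) / 5) ^ 2 := by ring
        _ ≤ Wc * ((4 + 8 * C) * x) := h3
        _ = Wc * (4 + 8 * C) * x := by ring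
    exact le_of_mul_le_mul_right h5 hx0
  have h5 : 0 < 4 + 8 * C := by positivity
  rw [div_mul_eq_mul_div, one_mul, div_le_iff₀ (by positivity)]
  linarith

end Pool.Agent.Helper33.LG
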